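import Mathlib
import Pool.Agent.K4H77.SL.Lin

/-!
# Elements fixed by a decomposition group are approximated by elements of the base field
-/

set_option autoImplicit false
set_option linter.unusedSectionVars false

namespace Pool.Agent.J4.H4.Stark

open NumberField Pool.Agent.K4H77.SL
open scoped Pointwise

section approx

variable {K N : Type} [Field K] [NumberField K] [Field N] [NumberField N] [Algebra K N]
  [IsGalois K N]

lemma smul_eq_gi (g : N ≃ₐ[K] N) (x : 𝓞 N) : g • x = gi g x := by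
  apply RingOfIntegers.ext
  rfl

lemma mem_decomp_iff {Q : Ideal (𝓞 N)} {g : N ≃ₐ[K] N} :
    g ∈ decomp K Q ↔ g • Q = Q := by
  constructor
  · intro h
    ext x
    rw [Ideal.mem_pointwise_smul_iff_inv_smul_mem, smul_eq_gi]
    exact (decomp_inv h) x
  · intro h x
    rw [← smul_eq_gi]
    conv_lhs => rw [← h]
    exact Ideal.smul_mem_pointwise_smul_iff

lemma smul_isMaximal {Q : Ideal (𝓞 N)} (hQ : Q.IsMaximal) (g : N ≃ₐ[K] N) :
    (g • Q).IsMaximal := by
  have h5 : g • Q = Q.comap (gi g⁻¹) := by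
    ext x
    rw [Ideal.mem_pointwise_smul_iff_inv_smul_mem, Ideal.mem_comap, smul_eq_gi]
  rw [h5]
  apply Ideal.comap_isMaximal_of_surjective
  intro x
  refine ⟨gi g x, ?_⟩
  rw [← gi_mul, inv_mul_cancel, gi_one]

lemma smul_pow_ideal (g : N ≃ₐ[K] N) (Q : Ideal (𝓞 N)) (n : ℕ) : g • (Q ^ n) = (g • Q) ^ n :=
  smul_pow' g Q n

/-- an element fixed by the decomposition group of `Q` is approximated by the integers of `K` -/
theorem approx {Q : Ideal (𝓞 N)} (hQ : Q.IsMaximal) {α : 𝓞 N}
    (hα : ∀ g ∈ decomp K Q, gi g α = α) (n : ℕ) :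
    ∃ a : 𝓞 K, algebraMap (𝓞 K) (𝓞 N) a - α ∈ Q ^ n := by
  classical
  have hfin : FiniteDimensional K N := Module.Finite.of_restrictScalars_finite ℚ K N
  let G := N ≃ₐ[K] N
  have hG : Fintype G := Fintype.ofFinite G
  let D : Subgroup G := MulAction.stabilizer G Q
  have hD : ∀ g : G, g ∈ D ↔ g • Q = Q := fun g => MulAction.mem_stabilizer_iff
  let I : Ideal (𝓞 N) := ∏ g ∈ Finset.univ.filter (fun g : G => g • Q ≠ Q), (g • Q) ^ n
  have hcop : IsCoprime (Q ^ n) I := by
    apply IsCoprime.prod_right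
    intro g hg
    apply IsCoprime.pow
    rw [Ideal.isCoprime_iff_sup_eq]
    exact Ideal.IsMaximal.coprime_of_ne hQ (smul_isMaximal hQ g)
      (Ne.symm (Finset.mem_filter.mp hg).2)
  obtain ⟨γ, hγ, β, hβ, hγβ⟩ := Ideal.isCoprime_iff_exists.mp hcop
  have hβI : ∀ g : G, g • Q ≠ Q → β ∈ (g • Q) ^ n := by
    intro g hg
    have h1 : I ≤ (g • Q) ^ n := by
      apply Ideal.prod_le_inf.trans
      exact Finset.inf_le (Finset.mem_filter.mpr ⟨Finset.mem_univ g, hg⟩)
    exact h1 hβ
  have hDf : Fintype D := Fintype.ofFinite D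
  let β' : 𝓞 N := ∏ d : D, (d : G) • β
  have hinv : ∀ h ∈ D, h • β' = β' := by
    intro h hh
    change h • (∏ d : D, (d : G) • β) = _
    rw [Finset.smul_prod']
    refine Fintype.prod_equiv (Equiv.mulLeft (⟨h, hh⟩ : D)) _ _ fun d => ?_
    rw [smul_smul]
    rfl
  have hone : β' - 1 ∈ Q ^ n := by
    rw [← Ideal.Quotient.eq, map_one]
    change Ideal.Quotient.mk (Q ^ n) (∏ d : D, (d : G) • β) = 1
    rw [map_prod]
    apply Finset.prod_eq_one
    intro d _
    rw [← map_one (Ideal.Quotient.mk (Q ^ n)), Ideal.Quotient.eq]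
    have h1 : (d : G) • β - 1 = (d : G) • (- γ) := by
      have h2 : (1 : 𝓞 N) = (d : G) • (1 : 𝓞 N) := by rw [smul_one]
      conv_lhs => rw [h2, ← hγβ]
      rw [smul_add, smul_neg]
      ring
    rw [h1]
    have h3 : (d : G) • (Q ^ n) = Q ^ n := by rw [smul_pow_ideal, (hD _).mp d.2]
    rw [← h3]
    exact Ideal.smul_mem_pointwise_smul _ _ _ (neg_mem hγ)
  have hzero : ∀ g : G, g • Q ≠ Q → β' ∈ (g • Q) ^ n := by
    intro g hg
    have h1 : β' = (((1 : D) : G) • β) * ∏ d ∈ Finset.univ.erase (1 : D), (d : G) • β :=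
      (Finset.mul_prod_erase Finset.univ (fun d : D => (d : G) • β) (Finset.mem_univ 1)).symm
    rw [h1]
    apply Ideal.mul_mem_right
    rw [Subgroup.coe_one, one_smul]
    exact hβI g hg
  have hαD : ∀ h ∈ D, h • α = α := by
    intro h hh
    rw [smul_eq_gi]
    exact hα h (mem_decomp_iff.mpr ((hD h).mp hh))
  let F : G ⧸ D → 𝓞 N := fun c => Quotient.liftOn' c (fun g => g • (β' * α)) (by
    intro a b hab
    rw [QuotientGroup.leftRel_apply] at hab
    have h1 : b = a * (a⁻¹ * b) := by group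
    change a • (β' * α) = b • (β' * α)
    conv_rhs => rw [h1, mul_smul, smul_mul' (a⁻¹ * b), hinv _ hab, hαD _ hab])
  have hF : ∀ g : G, F (QuotientGroup.mk g) = g • (β' * α) := fun g => rfl
  have hQf : Fintype (G ⧸ D) := Fintype.ofFinite _
  let a : 𝓞 N := ∑ c : G ⧸ D, F c
  have hainv : ∀ h : G, h • a = a := by
    intro h
    change h • (∑ c : G ⧸ D, F c) = _
    rw [Finset.smul_sum]
    refine Fintype.sum_equiv (MulAction.toPerm h) _ _ fun c => ?_
    induction c using QuotientGroup.induction_on with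
    | H g =>
      rw [hF, smul_smul]
      rfl
  obtain ⟨a₀, ha₀⟩ := Algebra.IsInvariant.isInvariant (A := 𝓞 K) (B := 𝓞 N) (G := G) a hainv
  refine ⟨a₀, ?_⟩
  rw [ha₀]
  have h1 : a = F (QuotientGroup.mk 1) + ∑ c ∈ Finset.univ.erase (QuotientGroup.mk (1 : G)), F c :=
    (Finset.add_sum_erase Finset.univ F (Finset.mem_univ _)).symm
  have h2 : a - α = (β' - 1) * α + ∑ c ∈ Finset.univ.erase (QuotientGroup.mk (1 : G)), F c := by
    rw [h1, hF, one_smul]
    ring
  rw [h2]
  apply add_mem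
  · exact Ideal.mul_mem_right _ _ hone
  · apply sum_mem
    intro c hc
    induction c using QuotientGroup.induction_on with
    | H g =>
      rw [hF]
      have hg : g ∉ D := by
        intro hg
        apply (Finset.mem_erase.mp hc).1
        rw [eq_comm, QuotientGroup.eq, inv_one, one_mul]
        exact hg
      have hg' : g⁻¹ • Q ≠ Q := by
        intro h
        apply hg
        have h3 := D.inv_mem ((hD g⁻¹).mpr h)
        rwa [inv_inv] at h3
      have h4 : β' * α ∈ g⁻¹ • (Q ^ n) := by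
        rw [smul_pow_ideal]
        exact Ideal.mul_mem_right _ _ (hzero _ hg')
      have h5 := Ideal.mem_pointwise_smul_iff_inv_smul_mem.mp h4
      rwa [inv_inv] at h5

end approx

end Pool.Agent.J4.H4.Stark
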