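import Mathlib
import Pool.Agent.J4.H4.Stark.Approx

/-!
# Fields fixed by decomposition groups are contained in the completions
-/

set_option autoImplicit false
set_option linter.unusedSectionVars false

namespace Pool.Agent.J4.H4.Stark

open NumberField Pool.Agent.K4H77.SL IsDedekindDomain Polynomial
open scoped Pointwise

section norm

variable {K : Type} [Field K] [NumberField K] (v : HeightOneSpectrum (𝓞 K))

/-- the norm of a uniformizer -/
noncomputable def rr : ℝ := (WithZeroMulInt.toNNReal (HeightOneSpectrum.absNorm_ne_zero v)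
    (WithZero.exp (-1 : ℤ)) : NNReal)

lemma rr_lt : rr v < 1 := by
  have h := (WithZeroMulInt.toNNReal_lt_one_iff (e := (Ideal.absNorm v.asIdeal : NNReal))
    (m := WithZero.exp (-1 : ℤ)) (HeightOneSpectrum.one_lt_absNorm_nnreal v)).mpr (by
      rw [← WithZero.exp_zero]
      exact WithZero.exp_lt_exp.mpr (by norm_num))
  exact_mod_cast h

lemma rr_nonneg : 0 ≤ rr v := NNReal.coe_nonneg _

lemma norm_le_of_mem {x : 𝓞 K} {n : ℕ} (h : v.intValuation x ≤ WithZero.exp (-(n : ℤ))) :
    ‖FinitePlace.embedding v (algebraMap (𝓞 K) K x)‖ ≤ rr v ^ n := by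
  rw [FinitePlace.norm_embedding_int]
  have h1 : WithZero.exp (-(n : ℤ)) = (WithZero.exp (-1 : ℤ)) ^ n := by
    rw [← WithZero.exp_nsmul]
    simp
  have h2 := (WithZeroMulInt.toNNReal_strictMono
    (HeightOneSpectrum.one_lt_absNorm_nnreal v)).monotone h
  rw [h1, map_pow] at h2
  rw [rr]
  exact_mod_cast h2

end norm

section hom

variable {k K N : Type} [Field k] [NumberField k] [Field K] [NumberField K] [Field N]
  [NumberField N] [Algebra K N] [IsGalois K N] [Algebra k N]

/-- an integral primitive element -/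
lemma exists_prim : ∃ β : 𝓞 k, IntermediateField.adjoin ℚ {(β : k)} = ⊤ := by
  obtain ⟨θ, hθ⟩ := Field.exists_primitive_element ℚ k
  have h1 : IsAlgebraic ℤ θ := (IsFractionRing.isAlgebraic_iff ℤ ℚ k).mpr
    (Algebra.IsAlgebraic.isAlgebraic θ)
  obtain ⟨d, hd, hint⟩ := h1.exists_integral_multiple
  refine ⟨⟨d • θ, hint⟩, ?_⟩
  rw [eq_top_iff, ← hθ, IntermediateField.adjoin_le_iff]
  intro x hx
  rw [Set.mem_singleton_iff] at hx
  subst hx
  have h2 : d • x ∈ IntermediateField.adjoin ℚ {d • x} :=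
    IntermediateField.mem_adjoin_simple_self ℚ _
  have hd' : (d : k) ≠ 0 := by exact_mod_cast hd
  have h3 : (d : k)⁻¹ * (d • x) = x := by
    rw [zsmul_eq_mul, inv_mul_cancel_left₀ hd']
  have h4 : (d : k)⁻¹ * (d • x) ∈ IntermediateField.adjoin ℚ {d • x} :=
    mul_mem (inv_mem (intCast_mem _ d)) h2
  rw [h3] at h4
  exact h4

/-- **The completions contain the fields fixed by the decomposition groups.** -/
theorem exists_hom (v : HeightOneSpectrum (𝓞 K)) {Q : Ideal (𝓞 N)} (hQ : Q.IsMaximal)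
    (hQv : Q.comap (algebraMap (𝓞 K) (𝓞 N)) = v.asIdeal)
    (hfix : ∀ g ∈ decomp K Q, ∀ x : k, g (algebraMap k N x) = algebraMap k N x) :
    Nonempty (k →+* v.adicCompletion K) := by
  classical
  obtain ⟨β, hβ⟩ := exists_prim (k := k)
  have hQp : Q.IsPrime := hQ.isPrime
  have hQ0 : Q ≠ ⊥ := by
    rintro rfl
    apply v.ne_bot
    rw [← hQv]
    exact Ideal.comap_bot_of_injective _ (FaithfulSMul.algebraMap_injective (𝓞 K) (𝓞 N))
  let w : HeightOneSpectrum (𝓞 N) := ⟨Q, hQp, hQ0⟩
  have hlies : w.asIdeal.LiesOver v.asIdeal := ⟨hQv.symm⟩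
  let e : ℕ := v.asIdeal.ramificationIdx' w.asIdeal
  have he : e ≠ 0 := Ideal.IsDedekindDomain.ramificationIdx'_ne_zero_of_liesOver w.asIdeal v.ne_bot
  have hval : ∀ (x : 𝓞 K) (n : ℕ), algebraMap (𝓞 K) (𝓞 N) x ∈ Q ^ (e * n) →
      v.intValuation x ≤ WithZero.exp (-(n : ℤ)) := by
    intro x n hx
    have h1 := (w.intValuation_le_pow_iff_mem (algebraMap (𝓞 K) (𝓞 N) x) (e * n)).mpr hx
    rw [← HeightOneSpectrum.intValuation_liesOver v w x] at h1
    have h2 : WithZero.exp (-((e * n : ℕ) : ℤ)) = WithZero.exp (-(n : ℤ)) ^ e := by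
      rw [← WithZero.exp_nsmul]
      congr 1
      push_cast
      simp
    rw [h2] at h1
    exact (pow_le_pow_iff_left₀ zero_le zero_le he).mp h1
  let βN : 𝓞 N := algebraMap (𝓞 k) (𝓞 N) β
  have hβN : ∀ g ∈ decomp K Q, gi g βN = βN := by
    intro g hg
    apply RingOfIntegers.ext
    exact hfix g hg (β : k)
  choose a ha using fun n : ℕ => approx hQ hβN (e * n)
  let ι : 𝓞 K →+* v.adicCompletion K := (FinitePlace.embedding v).comp (algebraMap (𝓞 K) K)
  let u : ℕ → v.adicCompletion K := fun n => ι (a n)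
  have hu : ∀ n, dist (u n) (u (n + 1)) ≤ 1 * rr v ^ n := by
    intro n
    rw [one_mul, dist_eq_norm]
    change ‖ι (a n) - ι (a (n + 1))‖ ≤ _
    rw [← map_sub]
    apply norm_le_of_mem
    apply hval
    have h1 : algebraMap (𝓞 K) (𝓞 N) (a n - a (n + 1))
        = (algebraMap (𝓞 K) (𝓞 N) (a n) - βN) - (algebraMap (𝓞 K) (𝓞 N) (a (n + 1)) - βN) := by
      rw [map_sub]
      ring
    rw [h1]
    exact sub_mem (ha n) (Ideal.pow_le_pow_right (Nat.mul_le_mul_left e (Nat.le_succ n))
      (ha (n + 1)))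
  have hc : CauchySeq u := cauchySeq_of_le_geometric (rr v) 1 (rr_lt v) hu
  obtain ⟨y, hy⟩ := cauchySeq_tendsto_of_complete hc
  let g : ℤ[X] := minpoly ℤ β
  have hcomp : ∀ {R S : Type} [CommRing R] [CommRing S] (f : R →+* S),
      f.comp (Int.castRingHom R) = Int.castRingHom S := fun f => RingHom.ext_int _ _
  have hg0 : g.eval₂ (Int.castRingHom (𝓞 N)) βN = 0 := by
    have h1 : g.eval₂ (Int.castRingHom (𝓞 k)) β = 0 := by
      have h2 := minpoly.aeval ℤ β
      rw [aeval_def] at h2
      rw [← h2]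
      congr 1
    have h3 := hom_eval₂ g (Int.castRingHom (𝓞 k)) (algebraMap (𝓞 k) (𝓞 N)) β
    rw [h1, map_zero, hcomp] at h3
    exact h3.symm
  have hroot : ∀ n, ‖g.eval₂ (Int.castRingHom (v.adicCompletion K)) (u n)‖ ≤ rr v ^ n := by
    intro n
    have h1 : g.eval₂ (Int.castRingHom (v.adicCompletion K)) (u n)
        = ι (g.eval₂ (Int.castRingHom (𝓞 K)) (a n)) := by
      rw [hom_eval₂, hcomp]
    rw [h1]
    apply norm_le_of_mem
    apply hval
    have h2 : algebraMap (𝓞 K) (𝓞 N) (g.eval₂ (Int.castRingHom (𝓞 K)) (a n))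
        = g.eval₂ (Int.castRingHom (𝓞 N)) (algebraMap (𝓞 K) (𝓞 N) (a n))
          - g.eval₂ (Int.castRingHom (𝓞 N)) βN := by
      rw [hg0, sub_zero, hom_eval₂, hcomp]
    rw [h2]
    have h3 : (algebraMap (𝓞 K) (𝓞 N) (a n)) - βN ∣
        g.eval₂ (Int.castRingHom (𝓞 N)) (algebraMap (𝓞 K) (𝓞 N) (a n))
          - g.eval₂ (Int.castRingHom (𝓞 N)) βN := by
      rw [eval₂_eq_eval_map, eval₂_eq_eval_map]
      exact sub_dvd_eval_sub _ _ _
    exact Ideal.mem_of_dvd _ h3 (ha n)
  have hy0 : g.eval₂ (Int.castRingHom (v.adicCompletion K)) y = 0 := by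
    have h1 : Filter.Tendsto (fun n => g.eval₂ (Int.castRingHom (v.adicCompletion K)) (u n))
        Filter.atTop (nhds (g.eval₂ (Int.castRingHom (v.adicCompletion K)) y)) := by
      have h2 : Continuous (fun z : v.adicCompletion K =>
          g.eval₂ (Int.castRingHom (v.adicCompletion K)) z) := by
        have : (fun z : v.adicCompletion K => g.eval₂ (Int.castRingHom (v.adicCompletion K)) z)
            = fun z => (g.map (Int.castRingHom (v.adicCompletion K))).eval z := by
          funext z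
          rw [eval₂_eq_eval_map]
        rw [this]
        exact Polynomial.continuous _
      exact (h2.tendsto y).comp hy
    have h3 : Filter.Tendsto (fun n => g.eval₂ (Int.castRingHom (v.adicCompletion K)) (u n))
        Filter.atTop (nhds 0) := by
      apply squeeze_zero_norm hroot
      exact tendsto_pow_atTop_nhds_zero_of_lt_one (rr_nonneg v) (rr_lt v)
    exact tendsto_nhds_unique h1 h3
  -- the homomorphism
  have hint : IsIntegral ℚ (β : k) := Algebra.IsIntegral.isIntegral _
  have hmin : minpoly ℚ (β : k) = g.map (algebraMap ℤ ℚ) := by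
    have h1 := minpoly.isIntegrallyClosed_eq_field_fractions' ℚ (RingOfIntegers.isIntegral_coe β)
    rw [h1]
    congr 1
    exact minpoly.algebraMap_eq (RingOfIntegers.coe_injective) β
  have hy1 : aeval y (minpoly ℚ (β : k)) = 0 := by
    rw [hmin, aeval_def, eval₂_map, ← hy0]
    congr 1
    exact RingHom.ext_int _ _
  let pb := IntermediateField.adjoin.powerBasis hint
  have hpb : aeval y (minpoly ℚ pb.gen) = 0 := by
    have h1 : minpoly ℚ pb.gen = minpoly ℚ (β : k) := by
      rw [IntermediateField.adjoin.powerBasis_gen]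
      exact IntermediateField.minpoly_gen ℚ (β : k)
    rw [h1]
    exact hy1
  let f1 : IntermediateField.adjoin ℚ {(β : k)} →ₐ[ℚ] v.adicCompletion K := pb.lift y hpb
  let f2 : k →ₐ[ℚ] IntermediateField.adjoin ℚ {(β : k)} :=
    ((IntermediateField.equivOfEq hβ).trans IntermediateField.topEquiv).symm.toAlgHom
  exact ⟨(f1.comp f2).toRingHom⟩

end hom

end Pool.Agent.J4.H4.Stark
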