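import Mathlib
import Pool.Agent.J4.H4.Stark.Compl
import Pool.Agent.K4H34.NC.Main

/-!
# The reduction with local conditions: unramified extensions of totally complex fields which
contain a given field locally

The proofs follow `Pool.Agent.K4H34.NC`.
-/

set_option autoImplicit false
set_option linter.unusedSectionVars false

namespace Pool.Agent.J4.H4.Stark

open NumberField NumberField.ComplexEmbedding Polynomial Pool.Agent.R389 Pool.Agent.K4H74.ST
  Pool.Agent.K4H77.SL Pool.Agent.H302R2 Pool.Agent.H302R3 Pool.Agent.K4H34.ST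
  Pool.Agent.K4H34.NC IsDedekindDomain
open scoped Pointwise

/-- the completions of `K` at the primes above `m` contain `k` -/
def LC (k K : Type) [Field k] [Field K] [NumberField K] (m : ℕ) : Prop :=
  ∀ v : HeightOneSpectrum (𝓞 K), (m : 𝓞 K) ∈ v.asIdeal → Nonempty (k →+* v.adicCompletion K)

/-- the decomposition groups, in a Galois extension of `K` which contains `L` and `k`, of the
primes above `m` fix `k` -/
def LCd (k K L : Type) [Field k] [Field K] [Field L] [Algebra K L] (m : ℕ) : Prop :=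
  ∃ (N : Type) (_ : Field N) (_ : NumberField N) (_ : Algebra K N) (_ : Algebra L N)
    (_ : IsScalarTower K L N) (_ : IsGalois K N) (_ : Algebra k N),
    ∀ Q : Ideal (𝓞 N), Q.IsMaximal → (m : 𝓞 N) ∈ Q → ∀ g ∈ decomp K Q, ∀ x : k,
      g (algebraMap k N x) = algebraMap k N x

theorem LC.of_LCd {k K L : Type} [Field k] [NumberField k] [Field K] [NumberField K] [Field L]
    [Algebra K L] {m : ℕ} (h : LCd k K L m) : LC k K m := by
  obtain ⟨N, i1, i2, i3, i4, i5, i6, i7, hN⟩ := h
  intro v hv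
  have hvm : v.asIdeal.IsMaximal := v.isMaximal
  obtain ⟨Q, hQ, hQP⟩ := Ideal.exists_ideal_over_maximal_of_isIntegral (S := 𝓞 N) v.asIdeal (by
    have hinj : Function.Injective (algebraMap (𝓞 K) (𝓞 N)) :=
      FaithfulSMul.algebraMap_injective _ _
    rw [(RingHom.injective_iff_ker_eq_bot _).mp hinj]
    exact bot_le)
  have hm : (m : 𝓞 N) ∈ Q := by
    have h1 : algebraMap (𝓞 K) (𝓞 N) (m : 𝓞 K) ∈ Q := by
      rw [← Ideal.mem_comap, hQP]
      exact hv
    rwa [map_natCast] at h1
  exact exists_hom v hQ hQP (hN Q hQ hm)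

/-- `TrivSplitE` with the local condition -/
def TrivSplitKE (k : Type) [Field k] {M : Type} [CommGroup M] (A : ArtinInvariant M) (m e : ℕ) :
    Prop :=
  ∀ (K L : Type) [Field K] [NumberField K] [Field L] [NumberField L] [Algebra K L] [IsGalois K L],
    IsTotallyComplex K → LCd k K L m → IsCyclic (L ≃ₐ[K] L) → (∀ g : L ≃ₐ[K] L, g ^ e = 1) →
    (∀ P : Ideal (𝓞 L), P.IsMaximal → ∀ g ∈ inertia K P, g = 1) →
    (∀ P : Ideal (𝓞 L), P.IsMaximal → (m : 𝓞 L) ∈ P → ∀ g ∈ decomp K P, g = 1) →
    ∀ χ : (L ≃ₐ[K] L) → ℂ, IsChar χ → A.val K L χ = 1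

/-- `TrivSplitLinE` with the local condition -/
def TrivSplitLinKE (k : Type) [Field k] {M : Type} [CommGroup M] (A : ArtinInvariant M)
    (m e : ℕ) : Prop :=
  ∀ (K L : Type) [Field K] [NumberField K] [Field L] [NumberField L] [Algebra K L] [IsGalois K L],
    IsTotallyComplex K → LC k K m →
    (∀ P : Ideal (𝓞 L), P.IsMaximal → ∀ g ∈ inertia K P, g = 1) →
    (∀ P : Ideal (𝓞 L), P.IsMaximal → (m : 𝓞 L) ∈ P → ∀ g ∈ decomp K P, g = 1) →
    ∀ ψ : (L ≃ₐ[K] L) →* ℂˣ, Function.Injective ψ → ψ ^ e = 1 → A.val K L (lc ψ) = 1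

theorem trivSplitKE_of_lin {k : Type} [Field k] [NumberField k] {M : Type} [CommGroup M]
    {A : ArtinInvariant M} {m e : ℕ} (hA : TrivSplitLinKE k A m e) : TrivSplitKE k A m e := by
  intro K L _ _ _ _ _ _ hK hloc hcyc hexp hin hde χ hχ
  have hfinL : FiniteDimensional K L := Module.Finite.of_restrictScalars_finite ℚ K L
  have key : A.val K L χ ∈ (⊥ : Subgroup M) := by
    refine brauer_red ⊥ (fun U ψ => ?_) hχ
    rw [Subgroup.mem_bot]
    let F := IntermediateField.fixedField U
    obtain ⟨E, i1, i2, i3, i4, i5, i6, θ, hθ, hψ⟩ := lin_red F L ψ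
    have h1 : ψ = θ.comp (AlgEquiv.restrictNormalHom E) := by
      ext g
      rw [← hψ]
      rfl
    have hF : IsTotallyComplex F := by
      have h3 : ∀ v : InfinitePlace F, v.IsComplex := by
        intro v
        rw [← InfinitePlace.not_isReal_iff_isComplex]
        intro hv
        have h4 : (v.comap (algebraMap K F)).IsReal := InfinitePlace.IsReal.comap _ hv
        exact InfinitePlace.not_isReal_iff_isComplex.mpr (hK.isComplex _) h4
      exact ⟨h3⟩
    have hinF : ∀ P : Ideal (𝓞 L), P.IsMaximal → ∀ g ∈ inertia F P, g = 1 := by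
      intro P hP g hg
      have h3 : g.restrictScalars K ∈ inertia K P := by
        intro x
        exact hg x
      have h4 := hin P hP _ h3
      ext x
      exact AlgEquiv.congr_fun h4 x
    have hdeF : ∀ P : Ideal (𝓞 L), P.IsMaximal → (m : 𝓞 L) ∈ P → ∀ g ∈ decomp F P, g = 1 := by
      intro P hP hm g hg
      have h3 : g.restrictScalars K ∈ decomp K P := by
        intro x
        exact hg x
      have h4 := hde P hP hm _ h3
      ext x
      exact AlgEquiv.congr_fun h4 x
    have hfin : FiniteDimensional F E := Module.Finite.of_restrictScalars_finite ℚ F E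
    have hfinF : FiniteDimensional F L := Module.Finite.of_restrictScalars_finite ℚ F L
    have hθe : θ ^ e = 1 := by
      apply MonoidHom.ext
      intro y
      obtain ⟨g, rfl⟩ := AlgEquiv.restrictNormalHom_surjective (F := F) (K₁ := E) L y
      have h5 : g ^ e = 1 := by
        have h6 := hexp (g.restrictScalars K)
        ext x
        have h7 : ∀ n : ℕ, (g ^ n) x = ((g.restrictScalars K) ^ n) x := by
          intro n
          induction n generalizing x with
          | zero => rfl
          | succ n ih =>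
            rw [pow_succ, pow_succ]
            exact ih (g x)
        rw [h7, h6]
        rfl
      rw [MonoidHom.pow_apply, ← map_pow, ← map_pow, h5, map_one, map_one]
      rfl
    have hlocF : LCd k F E m := by
      obtain ⟨N, j1, j2, j3, j4, j5, j6, j7, hN⟩ := hloc
      let a2 : Algebra E N := ((algebraMap L N).comp (algebraMap E L)).toAlgebra
      have t1 : IsScalarTower F E N := IsScalarTower.of_algebraMap_eq fun x => by
        have e1 : algebraMap F L x = algebraMap E L (algebraMap F E x) :=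
          IsScalarTower.algebraMap_apply F E L x
        change algebraMap L N (algebraMap F L x) = algebraMap L N (algebraMap E L (algebraMap F E x))
        rw [e1]
      have t2 : IsScalarTower K F N := IsScalarTower.of_algebraMap_eq fun x => by
        change algebraMap K N x = algebraMap L N (algebraMap F L (algebraMap K F x))
        have e1 : algebraMap K L x = algebraMap F L (algebraMap K F x) :=
          IsScalarTower.algebraMap_apply K F L x
        rw [← e1, ← IsScalarTower.algebraMap_apply K L N]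
      have t3 : IsGalois F N := IsGalois.tower_top_of_isGalois K F N
      refine ⟨N, j1, j2, inferInstance, a2, t1, t3, j7, fun Q hQ hm g hg x => ?_⟩
      have h3 : g.restrictScalars K ∈ decomp K Q := by
        intro y
        exact hg y
      exact hN Q hQ hm _ h3 x
    rw [h1, val_lin_res]
    exact hA F E hF (LC.of_LCd hlocF) (unram_sub hinF) (split_sub hdeF) θ hθ hθe
  exact (Subgroup.mem_bot.mp key)

/-- `StL2` with the local condition -/
theorem l2k {k : Type} [Field k] {Mg : Type} [CommGroup Mg] {A : ArtinInvariant Mg} {m e : ℕ}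
    (hA : TrivSplitKE k A m e)
    (N : Type) [Field N] [NumberField N] [IsGalois ℚ N] [Algebra k N] (V : Subgroup (N ≃ₐ[ℚ] N))
    (hV : Hyper V) (hF : IsTotallyComplex (IntermediateField.fixedField V))
    (hloc : ∀ (u : V) (Q : Ideal (𝓞 N)), Q.IsMaximal → (u : N ≃ₐ[ℚ] N) ∈ decomp ℚ Q →
      (m : 𝓞 N) ∈ Q → ∀ x : k, (u : N ≃ₐ[ℚ] N) (algebraMap k N x) = algebraMap k N x)
    (Γ : Type) [Group Γ] [Finite Γ] (κ : V →* Γ) (hcyc : IsCyclic κ.range)
    (hexp : ∀ y ∈ κ.range, y ^ e = 1)
    (hgood1 : ∀ (u : V) (Q : Ideal (𝓞 N)), Q.IsMaximal → (u : N ≃ₐ[ℚ] N) ∈ decomp ℚ Q →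
      (m : 𝓞 N) ∈ Q → κ u = 1)
    (hgood2 : ∀ (u : V) (Q : Ideal (𝓞 N)), Q.IsMaximal → (u : N ≃ₐ[ℚ] N) ∈ inertia ℚ Q → κ u = 1)
    (ζ : Γ → ℂ) (hζ : IsChar ζ) : ind V (fun u => ζ (κ u)) ∈ TT A (K := ℚ) (L := N) ⊥ := by
  classical
  have hfin : FiniteDimensional ℚ N := inferInstance
  let F := IntermediateField.fixedField V
  let ε : V ≃* (N ≃ₐ[F] N) := IntermediateField.subgroupEquivAlgEquiv V
  have he : ∀ h : N ≃ₐ[F] N, (ε.symm h : N ≃ₐ[ℚ] N) = h.restrictScalars ℚ := by
    intro h
    obtain ⟨u, rfl⟩ := ε.surjective h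
    rw [MulEquiv.symm_apply_apply]
    ext x
    rfl
  let ρ : (N ≃ₐ[F] N) →* Γ := κ.comp ε.symm.toMonoidHom
  have hind : ind V (fun u => ζ (κ u)) = indChar ℚ F N (fun g => ζ (ρ g)) :=
    ind_fixed V _
  have hcharU : IsChar (fun g : N ≃ₐ[F] N => ζ (ρ g)) := Pool.Agent.K4H77.SL.IsChar.comp hζ ρ
  -- the field `E`
  let E : IntermediateField F N := IntermediateField.fixedField ρ.ker
  have hE : IsGalois F E := IsGalois.of_fixedField_normal_subgroup ρ.ker
  let π : (N ≃ₐ[F] N) →* (E ≃ₐ[F] E) := AlgEquiv.restrictNormalHom E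
  have hπ : Function.Surjective π := AlgEquiv.restrictNormalHom_surjective N
  have hfinF : FiniteDimensional F N := Module.Finite.of_restrictScalars_finite ℚ F N
  have hker : ∀ g : N ≃ₐ[F] N, π g = 1 ↔ ρ g = 1 := by
    intro g
    constructor
    · intro h
      have h1 : g ∈ E.fixingSubgroup := by
        rw [IntermediateField.mem_fixingSubgroup_iff]
        intro x hx
        have h2 := res_apply (L := E) g ⟨x, hx⟩
        change algebraMap E N (π g ⟨x, hx⟩) = _ at h2
        rw [h] at h2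
        exact h2.symm
      rw [IntermediateField.fixingSubgroup_fixedField] at h1
      exact h1
    · intro h
      ext x
      have h2 := res_apply (L := E) g x
      change algebraMap E N (π g x) = _ at h2
      change ((π g x : E) : N) = (x : N)
      exact h2.trans (x.2 ⟨g, h⟩)
  have hle : π.ker ≤ ρ.ker := fun g hg => (hker g).mp hg
  let ρ' : (E ≃ₐ[F] E) →* Γ := π.liftOfSurjective hπ ⟨ρ, hle⟩
  have hρ' : ∀ g, ρ' (π g) = ρ g := fun g => MonoidHom.liftOfRightInverse_comp_apply _ _ _ ⟨ρ, hle⟩ g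
  have hinj : Function.Injective ρ' := by
    rw [injective_iff_map_eq_one]
    intro a ha
    obtain ⟨g, rfl⟩ := hπ a
    rw [hρ'] at ha
    exact (hker g).mpr ha
  have hrange : ∀ a, ρ' a ∈ κ.range := by
    intro a
    obtain ⟨g, rfl⟩ := hπ a
    rw [hρ']
    exact ⟨ε.symm g, rfl⟩
  have hdec : ∀ (h : N ≃ₐ[F] N) (Q : Ideal (𝓞 N)), h ∈ decomp F Q →
      (ε.symm h : N ≃ₐ[ℚ] N) ∈ decomp ℚ Q := by
    intro h Q hh x
    have h1 : gi (ε.symm h : N ≃ₐ[ℚ] N) x = gi h x := by
      apply RingOfIntegers.ext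
      rw [he]
      rfl
    rw [h1]
    exact hh x
  have hine : ∀ (h : N ≃ₐ[F] N) (Q : Ideal (𝓞 N)), h ∈ inertia F Q →
      (ε.symm h : N ≃ₐ[ℚ] N) ∈ inertia ℚ Q := by
    intro h Q hh x
    have h1 : gi (ε.symm h : N ≃ₐ[ℚ] N) x = gi h x := by
      apply RingOfIntegers.ext
      rw [he]
      rfl
    rw [h1]
    exact hh x
  have hcycE : IsCyclic (E ≃ₐ[F] E) :=
    isCyclic_of_injective (ρ'.codRestrict κ.range hrange) (fun a b hab => by
      apply hinj
      exact congrArg Subtype.val hab)
  have hexpE : ∀ g : E ≃ₐ[F] E, g ^ e = 1 := by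
    intro g
    apply hinj
    rw [map_pow, map_one]
    exact hexp _ (hrange g)
  have hlocE : LCd k F E m := by
    refine ⟨N, inferInstance, inferInstance, inferInstance, inferInstance, inferInstance,
      inferInstance, inferInstance, fun Q hQ hm g hg x => ?_⟩
    have h1 := hloc (ε.symm g) Q hQ (hdec g Q hg) hm x
    rw [he] at h1
    exact h1
  have hval : A.val F E (fun g => ζ (ρ' g)) = 1 := by
    refine hA F E hF hlocE hcycE hexpE ?_ ?_ _ (Pool.Agent.K4H77.SL.IsChar.comp hζ ρ')
    · intro P hP g hg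
      obtain ⟨h, Q, hhg, hQ, hQP, hhQ⟩ := lift_inertia (L := N) hP hg
      have h1 : ρ h = 1 := hgood2 (ε.symm h) Q hQ (hine h Q hhQ)
      rw [← hhg]
      exact (hker h).mpr h1
    · intro P hP hm g hg
      obtain ⟨h, Q, hhg, hQ, hQP, hhQ⟩ := lift_decomp (N := N) hP hg
      have hmQ : (m : 𝓞 N) ∈ Q := by
        have h1 : algebraMap (𝓞 E) (𝓞 N) (m : 𝓞 E) ∈ Q := by
          rw [← Ideal.mem_comap, hQP]
          exact hm
        rwa [map_natCast] at h1
      have h1 : ρ h = 1 := hgood1 (ε.symm h) Q hQ (hdec h Q hhQ) hmQ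
      rw [← hhg]
      exact (hker h).mpr h1
  have hval2 : A.val F N (fun g => ζ (ρ g)) = 1 := by
    rw [← hval, ← A.val_infl F E N _ (Pool.Agent.K4H77.SL.IsChar.comp hζ ρ')]
    congr 1
    funext g
    rw [← hρ']
  have hval3 : A.val ℚ N (indChar ℚ F N (fun g => ζ (ρ g))) = 1 := by
    rw [A.val_ind ℚ F N _ hcharU]
    exact hval2
  have hfinal : A.val ℚ N (ind V (fun u => ζ (κ u))) = 1 := by
    rw [hind]
    exact hval3
  have hch : IsChar (ind V (fun u => ζ (κ u))) :=
    IsChar.ind_hyper hV (Pool.Agent.K4H77.SL.IsChar.comp hζ κ)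
  rw [mem_TT_char A hch, Subgroup.mem_bot]
  exact hfinal

end Pool.Agent.J4.H4.Stark
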