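import Mathlib
import Pool.Agent.J4.H4.Stark.Loc

/-!
# One hyperelementary subgroup, with the local condition

The proofs follow `Pool.Agent.K4H34.NC.Core`.
-/

set_option autoImplicit false
set_option linter.unusedSectionVars false

namespace Pool.Agent.J4.H4.Stark

open NumberField NumberField.ComplexEmbedding Polynomial Pool.Agent.R389 Pool.Agent.K4H74.ST
  Pool.Agent.K4H77.SL Pool.Agent.H302R2 Pool.Agent.H302R3 Pool.Agent.K4H34.ST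
  Pool.Agent.K4H34.NC
open scoped Pointwise

section ctx

variable {L L₀ N₁ M N k : Type} [Field L] [NumberField L] [IsGalois ℚ L] [Field L₀] [NumberField L₀]
  [IsGalois ℚ L₀] [Field N₁] [NumberField N₁] [IsGalois ℚ N₁] [Field M] [NumberField M]
  [IsGalois ℚ M] [Field N] [NumberField N] [IsGalois ℚ N] [Field k] [NumberField k] [IsGalois ℚ k]
  [Algebra L₀ N₁] [Algebra N₁ M] [Algebra L M] [Algebra M N] [Algebra k M]

variable {Mg : Type} [CommGroup Mg] {A : ArtinInvariant Mg}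

/-- elements whose part of order prime to `l` is trivial on `M` fix `k` -/
lemma loc_fix {l b n : ℕ} (hl : l.Prime) (hn : ¬ l ∣ n) (hb : Part l b (N ≃ₐ[ℚ] N))
    (hnk : ∀ y : k ≃ₐ[ℚ] k, y ^ n = 1) {u : N ≃ₐ[ℚ] N} (hu : rq M N (u ^ b) = 1) (x : k) :
    u (algebraMap M N (algebraMap k M x)) = algebraMap M N (algebraMap k M x) := by
  have h1 : ((rq k M).comp (rq M N)) (u ^ b) = ((rq k M).comp (rq M N)) u :=
    part_apply hl hn hb _ (fun v => hnk _) u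
  have h2 : rq k M (rq M N u) = 1 := by
    change ((rq k M).comp (rq M N)) u = 1
    rw [← h1]
    change rq k M (rq M N (u ^ b)) = 1
    rw [hu, map_one]
  rw [← rq_apply, ← rq_apply, h2]
  rfl

/-- the part of `χ` itself -/
theorem f_part_k (hL1 : StL1) {l b n e : ℕ} (hl : l.Prime) (hn : ¬ l ∣ n)
    {m s t : ℕ} (hTS : TrivSplitKE k A m e) (hms : m ∣ s) (hst : s ∣ t) (hC : Schm M N t)
    (hramL : ∀ P : Ideal (𝓞 L), (∃ g ∈ inertia ℚ P, g ≠ 1) → (s : 𝓞 L) ∈ P)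
    (hnk : ∀ y : k ≃ₐ[ℚ] k, y ^ n = 1) (hnL : ∀ y : L ≃ₐ[ℚ] L, y ^ n = 1) (heL : ∀ y : L ≃ₐ[ℚ] L, y ^ e = 1)
    (hb : Part l b (N ≃ₐ[ℚ] N)) {χ : (L ≃ₐ[ℚ] L) → ℂ} (hχ : IsChar χ)
    {U : Subgroup (N ≃ₐ[ℚ] N)} (hU : HypP l U) {g : N ≃ₐ[ℚ] N} (hgU : g ∈ U)
    (hg : (orderOf g).Coprime l) (hcx : ∀ c ∈ CC ℚ N, c ∉ U) (hgd : ¬ Dec s (rq M N g)) :
    ind U (genl b g (fun x => χ (rq L M (rq M N x))) U)
      ∈ satl l hl (TT A (K := ℚ) (L := N) ⊥) := by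
  have hfin : FiniteDimensional ℚ N := inferInstance
  have hfinL : FiniteDimensional ℚ L := inferInstance
  have hχc : ∀ g x, χ (x * g * x⁻¹) = χ g := (IsChar.heil hχ).conj
  let r : (N ≃ₐ[ℚ] N) →* (L ≃ₐ[ℚ] L) := (rq L M).comp (rq M N)
  have hrb : ∀ x, r (x ^ b) = r x := part_apply hl hn hb r (fun v => hnL _)
  refine hL1 _ l hl b hb U hU g hgU hg _ _ (fun u => χ (r u)) ?_ (fun u _ => rfl) fun V hV => ?_
  · intro u x
    simp only [Subgroup.coe_mul, Subgroup.coe_inv, map_mul, map_inv, hχc]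
  have hVH : HypP l V := hU.of_injective (Subgroup.inclusion hV)
    (Subgroup.inclusion_injective hV)
  have hbad : ∀ u ∈ U, ∀ Q : Ideal (𝓞 N), Q.IsMaximal → u ∈ decomp ℚ Q → (s : 𝓞 N) ∈ Q →
      r u = 1 := by
    intro u hu Q hQ huQ hs
    rw [← hrb]
    change rq L M (rq M N (u ^ b)) = 1
    rw [bad_dec hl hb hst hC hU hgU hg hgd hu hQ huQ hs, map_one]
  have hms' : ∀ Q : Ideal (𝓞 N), (m : 𝓞 N) ∈ Q → (s : 𝓞 N) ∈ Q := by
    intro Q hm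
    obtain ⟨k, rfl⟩ := hms
    rw [Nat.cast_mul]
    exact Q.mul_mem_right _ hm
  let _ : Algebra k N := ((algebraMap M N).comp (algebraMap k M)).toAlgebra
  refine l2k hTS N V ⟨l, hl, hVH⟩ (fixed_complex V fun c hc hcV => hcx c hc (hV hcV))
    (fun u Q hQ huQ hm x => loc_fix hl hn hb hnk
      (bad_dec hl hb hst hC hU hgU hg hgd (hV u.2) hQ huQ (hms' Q hm)) x)
    (L ≃ₐ[ℚ] L) (r.comp V.subtype) (hyp_cyclic_range hl hn hVH _ fun v => hnL _) ?_ ?_ ?_ χ hχ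
  · rintro y ⟨v, rfl⟩
    exact heL _
  · intro u Q hQ huQ hm
    refine hbad u (hV u.2) Q hQ huQ ?_
    obtain ⟨k, rfl⟩ := hms
    rw [Nat.cast_mul]
    exact Q.mul_mem_right _ hm
  · intro u Q hQ huQ
    by_cases hs : (s : 𝓞 N) ∈ Q
    · exact hbad u (hV u.2) Q hQ (inertia_sub Q huQ) hs
    by_contra hne
    apply hs
    rw [← nat_mem_comap (E := M), ← nat_mem_comap (E := L)]
    apply hramL
    exact ⟨_, inertia_res (inertia_res huQ), hne⟩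

/-- the part of the twisted local values -/
theorem g_part_k (hL1 : StL1) (hL3 : StL3) {l b n e : ℕ} (hl : l.Prime)
    (hn : ¬ l ∣ n) {m s t : ℕ} (hR : TrivOne A) (hTS : TrivSplitKE k A m e)
    (hms : m ∣ s) (hst : s ∣ t)
    (hA : LocA L L₀ N₁ M s) (hB : Schm L₀ N₁ t) (hC : Schm M N t)
    (hram0 : ∀ P : Ideal (𝓞 L₀), (∃ g ∈ inertia ℚ P, g ≠ 1) → (t : 𝓞 L₀) ∈ P)
    (ε : (M ≃ₐ[ℚ] M) →* ℂˣ) (η : 𝓞 M)
    (hεi : ∀ (σ : M ≃ₐ[ℚ] M) (Q : Ideal (𝓞 M)), Q.IsMaximal → (t : 𝓞 M) ∉ Q →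
        gi σ η - η ∈ Q → ε σ = 1)
    (hnk : ∀ y : k ≃ₐ[ℚ] k, y ^ n = 1) (hnL : ∀ y : L ≃ₐ[ℚ] L, y ^ n = 1) (heL : ∀ y : L ≃ₐ[ℚ] L, y ^ e = 1)
    (hnε : ∀ σ, ε σ ^ n = 1) (heε : ∀ σ, ε σ ^ e = 1)
    (hb : Part l b (N ≃ₐ[ℚ] N)) {χ : (L ≃ₐ[ℚ] L) → ℂ} (hχ : IsChar χ)
    {U : Subgroup (N ≃ₐ[ℚ] N)} (hU : HypP l U) {g : N ≃ₐ[ℚ] N} (hgU : g ∈ U)
    (hg : (orderOf g).Coprime l) (hcx : ∀ c ∈ CC ℚ N, c ∉ U) (hgd : ¬ Dec s (rq M N g)) :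
    ind U (genl b g (fun x => ((ε (rq M N x) : ℂˣ) : ℂ) *
      theta s (fun y => χ y - χ 1) L₀ N₁ M (rq N₁ M (rq M N (x ^ b)))) U)
        ∈ satl l hl (TT A (K := ℚ) (L := N) ⊥) := by
  have hfin : FiniteDimensional ℚ N := inferInstance
  have hfinM : FiniteDimensional ℚ M := inferInstance
  have hfinL : FiniteDimensional ℚ L := inferInstance
  have hχc : ∀ g x, χ (x * g * x⁻¹) = χ g := (IsChar.heil hχ).conj
  let π : (N ≃ₐ[ℚ] N) →* (N₁ ≃ₐ[ℚ] N₁) := (rq N₁ M).comp (rq M N)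
  by_cases hw : ∃ σ : M ≃ₐ[ℚ] M, rq N₁ M σ = π g ∧ Dec s σ ∧ rq L₀ N₁ (π g) ≠ 1
  swap
  · refine const_l hL1 hl hb hR hU hgU hg (z := 0) fun u hu => ?_
    have h1 := theta_zero_of (s := s) (χ := fun y => χ y - χ 1) (L₀ := L₀) π hw hu
    change _ * theta s (fun y => χ y - χ 1) L₀ N₁ M (π ((u : N ≃ₐ[ℚ] N) ^ b)) = _
    rw [h1, mul_zero, Int.cast_zero]
  obtain ⟨σ, h1, h2, h3⟩ := hw
  have hnt : ¬ Dec t (rq M N g) := by
    intro h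
    exact hgd (wd hst hA hB h2 h h1 (by rw [h1]; exact h3)).1
  obtain ⟨ρ, hρ1, hρ⟩ := key_rho hL3 hl hn hst hA hB hnL hb π hU hgU hg h2 h1 h3 hχc
  have hεf : Finite ε.range := by
    have : Set.Finite (Set.range ε) := Set.finite_range ε
    exact this
  obtain ⟨z, hz⟩ := char_one_int hχ
  have hUb : Part l b U := hb.sub U
  have hρb : ∀ u : U, ρ (u ^ b) = ρ u := part_apply hl hn hUb ρ (fun v => hnL _)
  have hεb : ∀ u : N ≃ₐ[ℚ] N, ε (rq M N (u ^ b)) = ε (rq M N u) :=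
    part_apply hl hn hb (ε.comp (rq M N)) (fun v => hnε _)
  refine hL1 _ l hl b hb U hU g hgU hg _ _
    (fun u => ((ε (rq M N (u : N ≃ₐ[ℚ] N)) : ℂˣ) : ℂ) * (χ (ρ u) - χ 1)) ?_ ?_ fun V hV => ?_
  · intro u x
    simp only [Subgroup.coe_mul, Subgroup.coe_inv, map_mul, map_inv, hχc]
    rw [mul_comm (ε (rq M N (x : N ≃ₐ[ℚ] N))), mul_inv_cancel_right]
  · intro u hu
    have h4 := hρ u hu
    change _ * theta s (fun y => χ y - χ 1) L₀ N₁ M (π ((u : N ≃ₐ[ℚ] N) ^ b)) = _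
    rw [h4]
  have hVH : HypP l V := hU.of_injective (Subgroup.inclusion hV)
    (Subgroup.inclusion_injective hV)
  let κ : V →* ε.range × (L ≃ₐ[ℚ] L) :=
    ((ε.rangeRestrict).comp ((rq M N).comp V.subtype)).prod (ρ.comp (Subgroup.inclusion hV))
  let ψ : ε.range × (L ≃ₐ[ℚ] L) →* ℂˣ := ε.range.subtype.comp (MonoidHom.fst _ _)
  have hζ0 : IsChar (fun y : ε.range × (L ≃ₐ[ℚ] L) =>
      χ (MonoidHom.snd ε.range (L ≃ₐ[ℚ] L) y)) :=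
    Pool.Agent.K4H77.SL.IsChar.comp hχ (MonoidHom.snd ε.range (L ≃ₐ[ℚ] L))
  have hζ : IsChar (fun y : ε.range × (L ≃ₐ[ℚ] L) => ((ψ y : ℂˣ) : ℂ) * χ y.2) :=
    isChar_twist ψ hζ0
  have hζ' : IsChar (fun y : ε.range × (L ≃ₐ[ℚ] L) => ((ψ y : ℂˣ) : ℂ)) := IsChar.lc ψ
  -- the triviality of `κ`
  have hκ : ∀ u : V, rq M N ((u : N ≃ₐ[ℚ] N) ^ b) = 1 → κ u = 1 := by
    intro u hu
    apply Prod.ext
    · apply Subtype.ext
      change ε (rq M N (u : N ≃ₐ[ℚ] N)) = 1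
      rw [← hεb, hu, map_one]
    · change ρ (Subgroup.inclusion hV u) = 1
      rw [← hρb]
      apply hρ1
      change rq L₀ N₁ (rq N₁ M (rq M N ((u : N ≃ₐ[ℚ] N) ^ b))) = 1
      rw [hu, map_one, map_one]
  have hbad : ∀ (u : V) (Q : Ideal (𝓞 N)), Q.IsMaximal → (u : N ≃ₐ[ℚ] N) ∈ decomp ℚ Q →
      (t : 𝓞 N) ∈ Q → κ u = 1 := fun u Q hQ huQ ht =>
    hκ u (bad_dec hl hb dvd_rfl hC hU hgU hg hnt (hV u.2) hQ huQ ht)
  have hmt' : ∀ Q : Ideal (𝓞 N), (m : 𝓞 N) ∈ Q → (t : 𝓞 N) ∈ Q := by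
    intro Q hm
    obtain ⟨k, rfl⟩ := hms
    obtain ⟨k', rfl⟩ := hst
    rw [Nat.cast_mul, Nat.cast_mul]
    exact Q.mul_mem_right _ (Q.mul_mem_right _ hm)
  have hpart : ∀ ζ : ε.range × (L ≃ₐ[ℚ] L) → ℂ, IsChar ζ →
      ind V (fun u => ζ (κ u)) ∈ TT A (K := ℚ) (L := N) ⊥ := by
    intro ζ hζ
    let _ : Algebra k N := ((algebraMap M N).comp (algebraMap k M)).toAlgebra
    refine l2k hTS N V ⟨l, hl, hVH⟩
      (fixed_complex V fun c hc hcV => hcx c hc (hV hcV))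
      (fun u Q hQ huQ hm x => loc_fix hl hn hb hnk
        (bad_dec hl hb dvd_rfl hC hU hgU hg hnt (hV u.2) hQ huQ (hmt' Q hm)) x) _ κ
      (hyp_cyclic_range hl hn hVH _ fun v => ?_) ?_ ?_ ?_ ζ hζ
    · apply Prod.ext
      · apply Subtype.ext
        exact hnε _
      · exact hnL _
    · rintro y ⟨v, rfl⟩
      apply Prod.ext
      · apply Subtype.ext
        exact heε _
      · exact heL _
    · intro u Q hQ huQ hm
      refine hbad u Q hQ huQ ?_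
      obtain ⟨k, rfl⟩ := hms
      obtain ⟨k', rfl⟩ := hst
      rw [Nat.cast_mul, Nat.cast_mul]
      exact Q.mul_mem_right _ (Q.mul_mem_right _ hm)
    · intro u Q hQ huQ
      by_cases ht : (t : 𝓞 N) ∈ Q
      · exact hbad u Q hQ (inertia_sub Q huQ) ht
      apply Prod.ext
      · apply Subtype.ext
        change ε (rq M N (u : N ≃ₐ[ℚ] N)) = 1
        refine hεi _ (Q.comap (algebraMap (𝓞 M) (𝓞 N))) (comap_max hQ) ?_ (inertia_res huQ η)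
        rw [nat_mem_comap]
        exact ht
      · change ρ (Subgroup.inclusion hV u) = 1
        apply hρ1
        by_contra hne
        apply ht
        rw [← nat_mem_comap (E := M), ← nat_mem_comap (E := N₁), ← nat_mem_comap (E := L₀)]
        apply hram0
        exact ⟨_, inertia_res (inertia_res (inertia_res huQ)), hne⟩
  have e1 : (fun v : V => ((ε (rq M N ((⟨(v : N ≃ₐ[ℚ] N), hV v.2⟩ : U) : N ≃ₐ[ℚ] N)) : ℂˣ) : ℂ) *
      (χ (ρ ⟨(v : N ≃ₐ[ℚ] N), hV v.2⟩) - χ 1))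
      = (fun v : V => (fun y : ε.range × (L ≃ₐ[ℚ] L) => ((ψ y : ℂˣ) : ℂ) * χ y.2) (κ v))
        - z • (fun v : V => (fun y : ε.range × (L ≃ₐ[ℚ] L) => ((ψ y : ℂˣ) : ℂ)) (κ v)) := by
    funext v
    rw [Pi.sub_apply, Pi.smul_apply, hz, zsmul_eq_mul]
    change ((ε (rq M N (v : N ≃ₐ[ℚ] N)) : ℂˣ) : ℂ) * (χ (ρ (Subgroup.inclusion hV v)) - z)
      = ((ε (rq M N (v : N ≃ₐ[ℚ] N)) : ℂˣ) : ℂ) * χ (ρ (Subgroup.inclusion hV v))
        - z * ((ε (rq M N (v : N ≃ₐ[ℚ] N)) : ℂˣ) : ℂ)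
    ring
  have e2 := map_zsmul (indHom (k := ℂ) V) z
    (fun v : V => (fun y : ε.range × (L ≃ₐ[ℚ] L) => ((ψ y : ℂˣ) : ℂ)) (κ v))
  rw [indHom_apply, indHom_apply] at e2
  rw [e1, ind_sub, e2]
  exact sub_mem (hpart _ hζ) (zsmul_mem (hpart _ hζ') z)

end ctx

end Pool.Agent.J4.H4.Stark
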