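import Mathlib
import Pool.Agent.K4H34.AL.Comb2
import Pool.Agent.J4.H4.Stark.Asm

/-!
# Relations with the local condition

The proof follows `Pool.Agent.K4H34.AL.Comb2`.
-/

set_option autoImplicit false
set_option linter.unusedSectionVars false

namespace Pool.Agent.J4.H4.Stark

open NumberField Pool.Agent.K4H74 Pool.Agent.K4H74.ST Pool.Agent.K4H74.SK Pool.Agent.K4H34
  Pool.Agent.K4H34.AL

/-- an inductive invariant of a character to a suitable power is a product of powers of its values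
on the family -/
theorem power_form_k (k : Type) [Field k] [NumberField k] [IsGalois ℚ k] {M : Type} [CommGroup M] (A : ArtinInvariant M) (T : Pair → Prop) {m : ℕ}
    (hm : m ≠ 0) {e : ℕ}
    (h1 : ∀ (K : Type) [Field K] [NumberField K], T ⟨⟨K, K⟩, fun _ => 1⟩)
    (h2 : ∀ E : Ext, IsTotallyReal E.K → ∀ ψ : G E →* ℂˣ, (∀ t : G E, IsCC t → ψ t = -1) →
      T ⟨E, lin ψ⟩)
    (h3 : ∀ E : Ext, IsTotallyComplex E.K → LC k E.K m →
      (∀ P : Ideal (𝓞 E.L), P.IsMaximal → (∀ g ∈ K4H77.SL.inertia E.K P, g = 1) ∧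
        ((m : 𝓞 E.L) ∈ P → ∀ g ∈ K4H77.SL.decomp E.K P, g = 1)) →
      ∀ ψ : G E →* ℂˣ, Function.Injective ψ → ψ ^ (2 * e) = 1 → T ⟨E, lin ψ⟩)
    {E : Ext} {χ : G E → ℂ} (hχ : IsChr χ) (N : Type) [Field N] [NumberField N] [IsGalois ℚ N]
    [Algebra E.L N] (heN : ∀ y : N ≃ₐ[ℚ] N, y ^ e = 1) :
    ∃ n : ℕ, 0 < n ∧ (∀ p : ℕ, p.Prime → p ∣ n →
        p ∣ 2 * Module.finrank ℚ N * Module.finrank ℚ k) ∧
      ∃ (r : ℕ) (x : Fin r → Pair) (k : Fin r → ℤ), (∀ i, T (x i)) ∧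
      pval A ⟨E, χ⟩ ^ n = ∏ i, pval A (x i) ^ k i := by
  let P : Subgroup M := Subgroup.closure {y : M | ∃ x : Pair, T x ∧ y = pval A x}
  let B : ArtinInvariant (M ⧸ P) := mapInv (QuotientGroup.mk' P) A
  have hB : ∀ x : Pair, T x → B.val x.1.K x.1.L x.2 = 1 := by
    intro x hx
    exact (QuotientGroup.eq_one_iff (N := P) _).mpr (Subgroup.subset_closure ⟨x, hx, rfl⟩)
  have i1 : TrivOne B := by
    intro K _ _
    exact hB _ (h1 K)
  have i2 : TrivSplitLinKE k B m (2 * e) := by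
    intro K L _ _ _ _ _ _ hK hloc hin hde ψ hψ hψe
    exact hB _ (h3 ⟨K, L⟩ hK hloc (fun P hP => ⟨hin P hP, fun hm => hde P hP hm⟩) ψ hψ hψe)
  have i3 : TrivOdd B := by
    intro K L _ _ _ _ _ _ hK ψ hψ
    refine hB _ (h2 ⟨K, L⟩ hK ψ ?_)
    rintro t ⟨φ, hφ⟩
    refine hψ φ t ?_
    ext x
    exact (hφ x).symm
  obtain ⟨n, hn, hp, h5⟩ := main_order_k k hm i1 i3 E.K E.L N heN i2 (isChr_iff.mp hχ)
  refine ⟨n, hn, hp, closure_form A T ?_⟩
  have h6 : B.val E.K E.L χ = QuotientGroup.mk' P (pval A ⟨E, χ⟩) := rfl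
  rw [h6, ← map_pow] at h5
  exact (QuotientGroup.eq_one_iff _).mp h5

end Pool.Agent.J4.H4.Stark
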